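import Pool.Agent.Helper99.MKV.GoalsR

/-! # MKV: packet MEG -/

open Finset MeasureTheory ProbabilityTheory Filter
open scoped ENNReal

namespace Pool.Agent.Helper37.MKV

open Pool.Agent.Helper99.ERW Pool.Agent.Helper99.EXC Pool.Agent.Helper99.MKV

theorem MEG (hMET : MET_stmt) : MEG_stmt := by
  intro E _ _ _ ν _ hν g h C b k1 h1 h2 h3 h4
  set F : (Site 2 → E) → Env 2 := fun ζ z _ _ => g (ζ z) with hF
  have hg : Measurable g := measurable_of_finite g
  have hFm : Measurable F := by
    refine measurable_pi_lambda _ fun z => measurable_pi_lambda _ fun _ =>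
      measurable_pi_lambda _ fun _ => hg.comp (measurable_pi_apply z)
  have hshift : ∀ x : Site 2, Measurable (fun (ζ : Site 2 → E) z => ζ (z + x)) := fun x =>
    measurable_pi_lambda _ fun z => measurable_pi_apply (z + x)
  have hcomm : ∀ x : Site 2, shift x ∘ F = F ∘ (fun (ζ : Site 2 → E) z => ζ (z + x)) := by
    intro x
    funext ζ
    rfl
  have hP : IsProbabilityMeasure (ν.map F) := Measure.isProbabilityMeasure_map hFm.aemeasurable
  have hSE : SE (ν.map F) := by
    refine ⟨fun x => ?_, fun A hA hinv => ?_⟩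
    · rw [Measure.map_map (measurable_shift x) hFm, hcomm x,
        ← Measure.map_map hFm (hshift x), hν.1 x]
    · rw [Measure.map_apply hFm hA]
      refine hν.2 _ (hFm hA) fun x => ?_
      have hx := hinv x
      calc (fun (ζ : Site 2 → E) z => ζ (z + x)) ⁻¹' (F ⁻¹' A)
          = (F ∘ (fun (ζ : Site 2 → E) z => ζ (z + x))) ⁻¹' A := rfl
        _ = (shift x ∘ F) ⁻¹' A := by rw [hcomm x]
        _ = F ⁻¹' (shift x ⁻¹' A) := rfl
        _ = F ⁻¹' A := by rw [hx]
  have hfm : Measurable (fun σ : Stack 2 => σ (0, true) 0) :=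
    (measurable_pi_apply 0).comp (measurable_pi_apply _)
  have hL : MemLp (fun ω : Env 2 => (fun σ : Stack 2 => σ (0, true) 0) (ω 0)) 2 (ν.map F) := by
    have hm0 : Measurable (fun ω : Env 2 => (fun σ : Stack 2 => σ (0, true) 0) (ω 0)) :=
      hfm.comp (measurable_pi_apply 0)
    rw [memLp_map_measure_iff hm0.aestronglyMeasurable hFm.aemeasurable]
    refine MemLp.of_bound (hm0.comp hFm).aestronglyMeasurable (∑ e, |g e|) ?_
    refine Filter.Eventually.of_forall fun ζ => ?_
    have : (((fun ω : Env 2 => (fun σ : Stack 2 => σ (0, true) 0) (ω 0)) ∘ F) ζ) = g (ζ 0) := rfl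
    rw [this, Real.norm_eq_abs]
    exact Finset.single_le_sum (f := fun e => |g e|) (fun e _ => abs_nonneg _) (Finset.mem_univ _)
  have key := hMET (ν.map F) hSE (fun σ : Stack 2 => σ (0, true) 0) hfm hL h C b k1 h1 h2 h3 h4
  refine key.congr fun k => ?_
  rw [integral_map hFm.aemeasurable]
  refine Measurable.aestronglyMeasurable ?_
  refine Measurable.pow_const ?_ 2
  refine Finset.measurable_sum _ fun z _ => ?_
  exact (hfm.comp (measurable_pi_apply z)).const_mul _

end Pool.Agent.Helper37.MKV
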